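import Pool.Agent.H9x.V1.Up
import Pool.Agent.H9x.Q.Size

/-! The keys cannot be computed by quantum circuits -/

set_option autoImplicit false

namespace Pool.Agent.H9x.V1

open Pool.Agent.NPC Pool.Agent.H622R2 Pool.Agent.H620R2.Gauge Pool.Agent.H622R2.Exp
  Pool.Agent.TH678.ETH Pool.Agent.TH678.SETH Pool.Agent.TH678.RS Filter Finset Pool.Agent.H9x.Q

variable {g : ℕ → SAlg × Polynomial ℕ} {S : ℕ → Polynomial ℕ} {b : ℕ → ℕ} {Φ : Oracle → Oracle}

/-- the language of the keys -/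
def LK (κ : ℕ → List Bool) : Set (List Bool) :=
  {x | (κ x.length).getD (x.filter fun b => b).length false = true}

/-- the index `i` as an input of length `s` -/
def xi (s i : ℕ) : List Bool := List.replicate i true ++ List.replicate (s - i) false

theorem length_xi {s i : ℕ} (h : i ≤ s) : (xi s i).length = s := by
  simp [xi]; omega

theorem filter_xi (s i : ℕ) : ((xi s i).filter fun b => b).length = i := by
  simp [xi, List.filter_append]

/-- the strings of length at most `a` -/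
def hs (a : ℕ) : Finset (List Bool) :=
  (range (a + 1)).biUnion fun n => (univ : Finset (Fin n → Bool)).image List.ofFn

theorem mem_hs {a : ℕ} {h : List Bool} (hh : h.length ≤ a) : h ∈ hs a := by
  unfold hs
  rw [mem_biUnion]
  refine ⟨h.length, mem_range.2 (by omega), mem_image.2 ⟨h.get, mem_univ _, ?_⟩⟩
  exact List.ofFn_get h

theorem card_hs (a : ℕ) : (hs a).card ≤ 2 ^ (a + 1) := by
  unfold hs
  refine card_biUnion_le.trans ?_
  have h1 : ∀ n ∈ range (a + 1), ((univ : Finset (Fin n → Bool)).image List.ofFn).card ≤ 2 ^ n := by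
    intro n _
    refine card_image_le.trans ?_
    simp
  refine (sum_le_sum h1).trans ?_
  have h2 : ∑ n ∈ range (a + 1), 2 ^ n = 2 ^ (a + 1) - 1 := by
    have := Nat.geomSum_eq (m := 2) le_rfl (a + 1)
    simpa using this
  have h3 : 1 ≤ 2 ^ (a + 1) := Nat.one_le_two_pow
  omega

/-- the keys with the new key `r` at the levels from `s₀` on -/
def ext (ℓ : ℕ → ℕ) (κ : ℕ → List Bool) (s₀ : ℕ) (r : List Bool) (s : ℕ) : List Bool :=
  if s < s₀ then κ s else r ++ List.replicate (ℓ s - ℓ s₀) false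

/-- the keys below `s₀` -/
def low (κ : ℕ → List Bool) (s₀ : ℕ) (s : ℕ) : Option (List Bool) :=
  if s < s₀ then some (κ s) else none

theorem few_diff (hc : Kp g S b Φ) {ℓ : ℕ → ℕ} {s₀ T : ℕ}
    (hT : ∀ s, s₀ ≤ s → T < s ^ (b s + 1)) (κ : ℕ → List Bool) (y : List Bool)
    (hy : y.length ≤ T) :
    (univ.filter fun r : Fin (ℓ s₀) → Bool =>
      orc Φ (fun s => some (ext ℓ κ s₀ (List.ofFn r) s)) y ≠ orc Φ (low κ s₀) y).card ≤ 1 := by
  rw [card_le_one]
  have key : ∀ r : Fin (ℓ s₀) → Bool, orc Φ (fun s => some (ext ℓ κ s₀ (List.ofFn r) s)) y ≠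
      orc Φ (low κ s₀) y → ∃ s, s₀ ≤ s ∧ Has S y s (ext ℓ κ s₀ (List.ofFn r) s) := by
    intro r hr
    obtain ⟨s, k, h1, h2, h3⟩ := orc_diff hc hT (fun s hs => by simp [ext, low, hs]) y hy hr
    refine ⟨s, h1, ?_⟩
    rcases h2 with h2 | h2
    · rw [Option.some.injEq] at h2
      rwa [h2]
    · simp [low, not_lt.2 h1] at h2
  intro r hr r' hr'
  rw [mem_filter] at hr hr'
  obtain ⟨s, h1, h2⟩ := key r hr.2
  obtain ⟨s', h1', h2'⟩ := key r' hr'.2
  obtain ⟨rfl, h3⟩ := h2.unique h2'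
  simp only [ext, if_neg (not_lt.2 h1)] at h3
  exact List.ofFn_injective (List.append_cancel_right h3)

/-- the circuits cannot compute the new key -/
theorem exists_key (hc : Kp g S b Φ) {ℓ : ℕ → ℕ} {s₀ T : ℕ}
    (hT : ∀ s, s₀ ≤ s → T < s ^ (b s + 1)) (κ : ℕ → List Bool) (F : QFamily) (a : ℕ)
    (G : ℕ)
    (hF : ∀ h ∈ hs a, ∀ i < ℓ s₀, (F.circ (pairBits h (xi s₀ i)).length).length ≤ G ∧
      Short T (F.circ (pairBits h (xi s₀ i)).length))
    (hnum : 2 ^ (a + 1) * (ℓ s₀ * (2304 * G ^ 2) + 1) < 2 ^ ℓ s₀) :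
    ∃ r : Fin (ℓ s₀) → Bool, ∀ h ∈ hs a, ∃ i < ℓ s₀, 
      ¬ (((List.ofFn r).getD i false = true → 2 / 3 ≤
        F.acc (orc Φ fun s => some (ext ℓ κ s₀ (List.ofFn r) s)) (pairBits h (xi s₀ i))) ∧
      (¬ (List.ofFn r).getD i false = true →
        F.acc (orc Φ fun s => some (ext ℓ κ s₀ (List.ofFn r) s)) (pairBits h (xi s₀ i)) ≤ 1 / 3)) := by
  classical
  set A₀ := orc Φ (low κ s₀) with hA₀
  set FF : (Fin (ℓ s₀) → Bool) → Oracle := fun r =>
    orc Φ fun s => some (ext ℓ κ s₀ (List.ofFn r) s) with hFF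
  set bad : List Bool → ℕ → Finset (Fin (ℓ s₀) → Bool) := fun h i => univ.filter fun r =>
    (1 / 12 : ℝ) ≤ |F.acc (FF r) (pairBits h (xi s₀ i)) - F.acc A₀ (pairBits h (xi s₀ i))| with hbad
  set gue : List Bool → Finset (Fin (ℓ s₀) → Bool) := fun h => univ.filter fun r =>
    ∀ i : Fin (ℓ s₀), r i = true ↔ 1 / 2 ≤ F.acc A₀ (pairBits h (xi s₀ i)) with hgue
  have hb : ∀ h ∈ hs a, ∀ i < ℓ s₀, (bad h i).card ≤ 2304 * G ^ 2 := by
    intro h hh i hi
    obtain ⟨h1, h2⟩ := hF h hh i hi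
    have h3 := sum_prob_diff A₀ FF 1 T zero_le_one (fun y hy => by
      exact_mod_cast few_diff hc hT κ y hy) _ h2
      ((pairBits h (xi s₀ i)).length + 1 + F.anc.eval (pairBits h (xi s₀ i)).length)
      (pairBits h (xi s₀ i))
    have h4 : ((bad h i).card : ℝ) * (1 / 144) ≤ 16 * (G : ℝ) ^ 2 := by
      have h5 : ∑ r ∈ bad h i, (1 / 144 : ℝ) ≤ ∑ r, (prob (FF r) (F.circ (pairBits h (xi s₀ i)).length)
          ((pairBits h (xi s₀ i)).length + 1 + F.anc.eval (pairBits h (xi s₀ i)).length)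
          (pairBits h (xi s₀ i)) - prob A₀ (F.circ (pairBits h (xi s₀ i)).length)
          ((pairBits h (xi s₀ i)).length + 1 + F.anc.eval (pairBits h (xi s₀ i)).length)
          (pairBits h (xi s₀ i))) ^ 2 := by
        refine (sum_le_sum fun r hr => ?_).trans (sum_le_sum_of_subset_of_nonneg (subset_univ _)
          fun _ _ _ => by positivity)
        have h6 := (mem_filter.1 hr).2
        have h7 := pow_le_pow_left₀ (by norm_num : (0 : ℝ) ≤ 1 / 12) h6 2
        rw [sq_abs] at h7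
        refine le_trans (by norm_num) h7
      rw [sum_const, nsmul_eq_mul] at h5
      refine h5.trans (h3.trans ?_)
      have h8 : ((F.circ (pairBits h (xi s₀ i)).length).length : ℝ) ≤ G := by exact_mod_cast h1
      have h9 : (0 : ℝ) ≤ ((F.circ (pairBits h (xi s₀ i)).length).length : ℝ) := by positivity
      nlinarith
    have h5 : ((bad h i).card : ℝ) ≤ 2304 * (G : ℝ) ^ 2 := by linarith
    exact_mod_cast h5
  have hg1 : ∀ h, (gue h).card ≤ 1 := by
    intro h
    rw [card_le_one]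
    intro r hr r' hr'
    funext i
    have h1 := (mem_filter.1 hr).2 i
    have h2 := (mem_filter.1 hr').2 i
    rw [Bool.eq_iff_iff, h1, h2]
  set U : Finset (Fin (ℓ s₀) → Bool) := (hs a).biUnion fun h =>
    ((range (ℓ s₀)).biUnion fun i => bad h i) ∪ gue h with hU
  have hUc : U.card < 2 ^ ℓ s₀ := by
    have h1 : U.card ≤ ∑ h ∈ hs a, (ℓ s₀ * (2304 * G ^ 2) + 1) := by
      refine card_biUnion_le.trans (sum_le_sum fun h hh => ?_)
      refine (card_union_le _ _).trans (add_le_add ?_ (hg1 h))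
      refine card_biUnion_le.trans ?_
      refine (sum_le_sum fun i hi => hb h hh i (mem_range.1 hi)).trans ?_
      rw [sum_const, card_range, smul_eq_mul]
    rw [sum_const, smul_eq_mul] at h1
    refine lt_of_le_of_lt (h1.trans (Nat.mul_le_mul_right _ (card_hs a))) hnum
  obtain ⟨r, hr⟩ : ∃ r, r ∉ U := by
    by_contra hcon
    push Not at hcon
    have : U = univ := eq_univ_of_forall hcon
    rw [this, card_univ] at hUc
    simp at hUc
  refine ⟨r, fun h hh => ?_⟩
  by_contra hcon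
  push Not at hcon
  apply hr
  rw [hU, mem_biUnion]
  refine ⟨h, hh, mem_union_right _ ?_⟩
  rw [mem_filter]
  refine ⟨mem_univ _, fun i => ?_⟩
  have hnb : r ∉ bad h i := by
    intro hb'
    exact hr (mem_biUnion.2 ⟨h, hh, mem_union_left _ (mem_biUnion.2 ⟨i, mem_range.2 i.2, hb'⟩)⟩)
  have h1 : |F.acc (FF r) (pairBits h (xi s₀ i)) - F.acc A₀ (pairBits h (xi s₀ i))| < 1 / 12 := by
    by_contra h2
    exact hnb (mem_filter.2 ⟨mem_univ _, not_lt.1 h2⟩)
  rw [abs_lt] at h1
  obtain ⟨h2, h3⟩ := hcon i i.2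
  have h4 : (List.ofFn r).getD i false = r i := by
    rw [List.getD_eq_getElem _ _ (by simp)]
    simp
  rw [h4] at h2 h3
  constructor
  · intro h5
    have := h2 h5
    linarith
  · intro h5
    by_contra h6
    have := h3 h6
    linarith

/-- finite extension argument -/
theorem finite_ext {β : Type} (Q : ℕ → β → Prop) (P : ℕ → (ℕ → β) → Prop)
    (h0 : ∃ κ : ℕ → β, ∀ s, Q s (κ s))
    (step : ∀ (j N : ℕ) (κ : ℕ → β), (∀ s, Q s (κ s)) → ∃ (κ' : ℕ → β) (N' : ℕ),
      (∀ s, Q s (κ' s)) ∧ (∀ s < N, κ' s = κ s) ∧ ∀ κ'' : ℕ → β, (∀ s, Q s (κ'' s)) →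
      (∀ s < N', κ'' s = κ' s) → P j κ'') :
    ∃ κ : ℕ → β, (∀ s, Q s (κ s)) ∧ ∀ j, P j κ := by
  choose f N' h1 h2 h3 using step
  -- the state: keys and a bound
  let St := {p : (ℕ → β) × ℕ // ∀ s, Q s (p.1 s)}
  let nxt : ℕ → St → St := fun j p => ⟨(f j p.1.2 p.1.1 p.2, max (N' j p.1.2 p.1.1 p.2) (p.1.2 + 1)),
    h1 j p.1.2 p.1.1 p.2⟩
  let st : ℕ → St := fun j => Nat.rec ⟨(h0.choose, 0), h0.choose_spec⟩ (fun j p => nxt j p) j
  have hst : ∀ j, st (j + 1) = nxt j (st j) := fun j => rfl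
  have hN : ∀ j, (st j).1.2 + 1 ≤ (st (j + 1)).1.2 := fun j => by
    rw [hst]
    exact le_max_right _ _
  have hNj : ∀ j, j ≤ (st j).1.2 := by
    intro j
    induction j with
    | zero => exact Nat.zero_le _
    | succ j ih => have := hN j; omega
  have hmono : ∀ i j, i ≤ j → (st i).1.2 ≤ (st j).1.2 := by
    intro i j hij
    induction hij with
    | refl => exact le_rfl
    | @step k _ ih =>
      exact ih.trans ((Nat.le_succ _).trans (hN k))
  have hag : ∀ i j, i ≤ j → ∀ s < (st i).1.2, (st j).1.1 s = (st i).1.1 s := by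
    intro i j hij
    induction hij with
    | refl => intro s _; rfl
    | @step k hik ih =>
      intro s hs
      have h4 : (st (k + 1)).1.1 s = (st k).1.1 s := by
        rw [hst]
        exact h2 k _ _ _ s (lt_of_lt_of_le hs (hmono i k hik))
      exact h4.trans (ih s hs)
  refine ⟨fun s => (st (s + 1)).1.1 s, fun s => (st (s + 1)).2 s, fun j => ?_⟩
  refine h3 j (st j).1.2 (st j).1.1 (st j).2 _ (fun s => (st (s + 1)).2 s) fun s hs => ?_
  have h4 : f j (st j).1.2 (st j).1.1 (st j).2 = (st (j + 1)).1.1 := rfl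
  rw [h4]
  have h5 : s < (st (j + 1)).1.2 := by
    rw [hst]
    exact lt_of_lt_of_le hs (le_max_left _ _)
  have h6 : s < (st (s + 1)).1.2 := hNj (s + 1)
  rcases le_total (s + 1) (j + 1) with h | h
  · exact (hag _ _ h s h6).symm
  · exact hag _ _ h s h5

end Pool.Agent.H9x.V1
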