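import Pool.Agent.H9x.V1.Code
import Pool.Agent.H620R2.GaugeR.Seq

/-! Upper bounds relative to the oracle with the locked codes -/

set_option autoImplicit false

namespace Pool.Agent.H9x.V1

open Pool.Agent.NPC Pool.Agent.H622R2 Pool.Agent.H620R2.Gauge Pool.Agent.H622R2.Exp
  Pool.Agent.TH678.ETH Pool.Agent.TH678.SETH Pool.Agent.TH678.RS Filter

variable {g : ℕ → SAlg × Polynomial ℕ} {S : ℕ → Polynomial ℕ} {b : ℕ → ℕ} {Φ : Oracle → Oracle}

theorem poly_rep {α : Type} [TEnc α] {f : α → ℕ} (hf : UPoly f) :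
    Poly (fun a => List.replicate (f a) true) :=
  (NPC.Poly.map hf (F := fun _ _ => true) (NPC.Poly.const true)).congr fun a => by simp

theorem poly_va {α : Type} [TEnc α] {f : α → ℕ} {k : α → List Bool} (hf : UPoly f) (hk : Poly k) :
    Poly (fun a => va (f a) (k a)) :=
  Poly.append (poly_rep hf) (Poly.cons (NPC.Poly.const false) hk)

theorem poly_cS {α : Type} [TEnc α] (e : ℕ) {f : α → ℕ} {y : α → List Bool} (hf : UPoly f)
    (hy : Poly y) : Poly (fun a => cS e (f a) (y a)) := by
  have h1 : UPoly (fun a => f a + 1) := UPoly.add hf (UPoly.const 1)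
  have h2 : Poly (fun a => List.replicate (f a + 1) true ++
      false :: (List.replicate e true ++ false :: y a)) :=
    Poly.append (poly_rep h1) (Poly.cons (NPC.Poly.const false)
      (Poly.append (NPC.Poly.const _) (Poly.cons (NPC.Poly.const false) hy)))
  exact h2.congr fun a => rfl

theorem poly_cK {α : Type} [TEnc α] (e : ℕ) {x k : α → List Bool} (hx : Poly x) (hk : Poly k) :
    Poly (fun a => cK S e (x a) (k a)) :=
  Poly.cons (NPC.Poly.const true) (Poly.cons (NPC.Poly.const false)
    (poly_cS e ((UPoly.length hx).eval (S e)) (poly_pairBits hk hx)))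

/-- the answer of the locked code -/
theorem key_code (hc : Kp g S b Φ) (κ : ℕ → Option (List Bool)) (e : ℕ) (x k : List Bool) :
    orc Φ κ (cK S e x k) = true ↔
      κ ((S e).eval x.length) = some k ∧ Ac g S e x (orc Φ κ) := by
  have h := hc.on (keyO κ) (Ix.key e x k : Ix S b)
  change orc Φ κ (cK S e x k) = true ↔ orc Φ κ (false :: va _ k) = true ∧ _ at h
  rw [h, orc_va hc]
  rfl

theorem poly_fin2 {α : Type} [TEnc α] (H : Bool → Bool → Bool) {f g : α → Bool} (hf : Poly f)
    (hg : Poly g) : Poly (fun a => H (f a) (g a)) := by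
  refine (Poly.cond hf (Poly.cond hg (NPC.Poly.const (H true true)) (NPC.Poly.const (H true false)))
    (Poly.cond hg (NPC.Poly.const (H false true)) (NPC.Poly.const (H false false)))).congr
    fun a => ?_
  cases f a <;> cases g a <;> rfl

/-- two questions -/
theorem isFP_two (A : Oracle) (H : List Bool → Bool → Bool → Bool) {q₁ q₂ : List Bool → List Bool}
    (h₁ : Poly q₁) (h₂ : Poly q₂)
    (hH : ∀ a b, Poly (fun z : List Bool => H z a b)) :
    IsFP A (fun z => [H z (A (q₁ z)) (A (q₂ z))]) := by
  have h1 : IsFP A (fun z => (fun p : List Bool × List Bool =>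
      [H p.1 (p.2.getD 0 false) (p.2.getD 1 false)]) (z, ([q₁ z, q₂ z]).map A)) :=
    IsFP.tt (Q := fun z => [q₁ z, q₂ z])
      (H := fun p => [H p.1 (p.2.getD 0 false) (p.2.getD 1 false)])
      (Poly.cons h₁ (Poly.cons h₂ (NPC.Poly.const []))) (by
        refine Poly.cons ?_ (NPC.Poly.const [])
        have h3 : Poly (fun p : List Bool × List Bool => p.2.getD 0 false) :=
          Poly.getD (Poly.snd Poly.id) (NPC.Poly.const 0) (NPC.Poly.const false)
        have h4 : Poly (fun p : List Bool × List Bool => p.2.getD 1 false) :=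
          Poly.getD (Poly.snd Poly.id) (NPC.Poly.const 1) (NPC.Poly.const false)
        have h5 : ∀ a b, Poly (fun p : List Bool × List Bool => H p.1 a b) := fun a b =>
          (hH a b).comp (Poly.fst Poly.id)
        refine (Poly.cond h3 (Poly.cond h4 (h5 true true) (h5 true false))
          (Poly.cond h4 (h5 false true) (h5 false false))).congr fun p => ?_
        cases p.2.getD 0 false <;> cases p.2.getD 1 false <;> rfl)
  exact h1

section

variable {κ : ℕ → List Bool}

/-- **Polynomial space is in `UP` and in `coUP`.** -/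
theorem up_of_pspace (hg : Function.Surjective g) (hc : Kp g S b Φ) (q : Polynomial ℕ)
    (hq : ∀ s, (κ s).length ≤ q.eval s) {L : Set (List Bool)}
    (hL : IsPSPACE (orc Φ fun s => some (κ s)) L) :
    IsUP (orc Φ fun s => some (κ s)) L ∧ IsUP (orc Φ fun s => some (κ s)) Lᶜ := by
  obtain ⟨e, he'⟩ := code_true hg hc _ hL
  have he : ∀ x, Ac g S e x (orc Φ fun s => some (κ s)) ↔ x ∈ L := he'
  have hx : Poly (fun y => (unpair y).2) := Poly.snd poly_unpair
  have hw : Poly (fun y => (unpair y).1) := Poly.fst poly_unpair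
  have h1 : Poly (fun z => false :: va ((S e).eval (unpair z).2.length) (unpair z).1) :=
    Poly.cons (NPC.Poly.const false) (poly_va ((UPoly.length hx).eval (S e)) hw)
  have h2 : Poly (fun z => cK S e (unpair z).2 (unpair z).1) := poly_cK e hx hw
  have key : ∀ c : Bool, ∃ (V : List Bool → List Bool), IsFP (orc Φ fun s => some (κ s)) V ∧
      ∀ w x, V (pairBits w x) = [true] ↔ w = κ ((S e).eval x.length) ∧ (c = true ↔ x ∈ L) := by
    intro c
    refine ⟨_, isFP_two _ (fun _ a b => a && (b == c)) h1 h2 (fun a b => NPC.Poly.const _), ?_⟩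
    intro w x
    simp only [unpair_pairBits, List.cons.injEq, and_true, Bool.and_eq_true, beq_iff_eq]
    rw [orc_va hc, Option.some.injEq, eq_comm]
    refine and_congr_right fun hw => ?_
    have h3 := key_code hc (fun s => some (κ s)) e x w
    have h4 : orc Φ (fun s => some (κ s)) (cK S e x w) = true ↔ x ∈ L := by
      rw [h3, he]
      exact and_iff_right (by rw [hw])
    rw [← h4]
    cases orc Φ (fun s => some (κ s)) (cK S e x w) <;> cases c <;> simp
  constructor
  · obtain ⟨V, hV, h⟩ := key true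
    refine ⟨V, q.comp (S e), hV, fun x => ?_, fun x w w' h1 h2 => ?_⟩
    · constructor
      · intro hx
        exact ⟨_, by rw [Polynomial.eval_comp]; exact hq _, (h _ _).2 ⟨rfl, by simp [hx]⟩⟩
      · rintro ⟨w, _, hw⟩
        exact ((h _ _).1 hw).2.1 rfl
    · rw [((h _ _).1 h1).1, ((h _ _).1 h2).1]
  · obtain ⟨V, hV, h⟩ := key false
    refine ⟨V, q.comp (S e), hV, fun x => ?_, fun x w w' h1 h2 => ?_⟩
    · constructor
      · intro hx
        exact ⟨_, by rw [Polynomial.eval_comp]; exact hq _, (h _ _).2 ⟨rfl, by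
          simp only [Bool.false_eq_true, false_iff]; exact hx⟩⟩
      · rintro ⟨w, _, hw⟩ hx
        exact absurd (((h _ _).1 hw).2.2 hx) (by simp)
    · rw [((h _ _).1 h1).1, ((h _ _).1 h2).1]

/-- **Polynomial space with the keys as advice.** -/
theorem adv_of_pspace (hg : Function.Surjective g) (hc : Kp g S b Φ) {α : ℕ → ℕ}
    (hκ : ∀ e, ∃ C, ∀ n, (κ ((S e).eval n)).length ≤ C * (α n + 1) * (Nat.log 2 n + 1))
    {L : Set (List Bool)} (hL : IsPSPACE (orc Φ fun s => some (κ s)) L) :
    IsAdv α (orc Φ fun s => some (κ s)) L := by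
  obtain ⟨e, he'⟩ := code_true hg hc _ hL
  have he : ∀ x, Ac g S e x (orc Φ fun s => some (κ s)) ↔ x ∈ L := he'
  have hx : Poly (fun y => (unpair y).2) := Poly.snd poly_unpair
  have hw : Poly (fun y => (unpair y).1) := Poly.fst poly_unpair
  have h2 : Poly (fun z => cK S e (unpair z).2 (unpair z).1) := poly_cK e hx hw
  obtain ⟨C, hC⟩ := hκ e
  refine ⟨C, fun n => κ ((S e).eval n), _, TH678.WP.isFP_ask' _ h2, hC, fun x => ?_⟩
  simp only [unpair_pairBits, List.cons.injEq, and_true]
  have h3 := key_code hc (fun s => some (κ s)) e x (κ ((S e).eval x.length))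
  rw [h3, he]
  exact (and_iff_right rfl).symm

/-- **Polynomial space in nearly polynomial time.** -/
theorem time_of_pspace {α : ℕ → ℕ} (hα : Monotone α) (hg : Function.Surjective g)
    (hc : Kp g S (bt α) Φ) {κ : ℕ → Option (List Bool)}
    {L : Set (List Bool)} (hL : IsPSPACE (orc Φ κ) L) :
    IsTime α (orc Φ κ) L := by
  obtain ⟨e, he⟩ := code_true hg hc _ hL
  obtain ⟨C, hC⟩ := Pool.Agent.Y626.WX.time_bound hα (S e)
  have hx : Poly (fun y => (unpair y).2) := Poly.snd poly_unpair
  have hw : Poly (fun y => (unpair y).1) := Poly.fst poly_unpair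
  have h1 : Poly (fun z => true :: true :: cS e (unpair z).1.length (unpair z).2) :=
    Poly.cons (NPC.Poly.const true) (Poly.cons (NPC.Poly.const true)
      (poly_cS e (UPoly.length hw) hx))
  refine ⟨C, _, TH678.WP.isFP_ask' _ h1, fun x => ?_⟩
  simp only [unpair_pairBits, List.cons.injEq, and_true, List.length_replicate]
  have h4 : (S e).eval x.length ^ (bt α ((S e).eval x.length) + 1) ≤
      (x.length + 2) ^ (C * (α x.length + 1)) := hC x.length
  have h5 := hc.on (keyO κ) (Ix.far ⟨(e, _, x), h4⟩ : Ix S (bt α))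
  rw [← he x]
  exact h5.symm

end

end Pool.Agent.H9x.V1
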