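import Pool.Agent.H9x.V1.Defs
import Pool.Agent.Y626.WX.Time

/-! The oracle with codes locked by keys -/

set_option autoImplicit false

namespace Pool.Agent.H9x.V1

open Pool.Agent.NPC Pool.Agent.H622R2 Pool.Agent.H620R2.Gauge Pool.Agent.H622R2.Exp
  Pool.Agent.TH678.ETH Pool.Agent.TH678.SETH Pool.Agent.TH678.RS Filter

/-- the string which asks whether `k` is the key number `s` -/
def va (s : ℕ) (k : List Bool) : List Bool := List.replicate s true ++ false :: k

theorem length_va (s : ℕ) (k : List Bool) : (va s k).length = s + 1 + k.length := by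
  simp [va]; omega

theorem va_inj {s s' : ℕ} {k k' : List Bool} (h : va s k = va s' k') : s = s' ∧ k = k' :=
  CC.rep_inj _ _ _ _ h

/-- the address of the locked code -/
def cK (S : ℕ → Polynomial ℕ) (e : ℕ) (x k : List Bool) : List Bool :=
  true :: false :: cS e ((S e).eval x.length) (pairBits k x)

theorem pairBits_inj {x x' w w' : List Bool} (h : pairBits x w = pairBits x' w') :
    x = x' ∧ w = w' := by
  have h1 := unpair_pairBits x w
  rw [h, unpair_pairBits] at h1
  simp only [Prod.mk.injEq] at h1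
  exact ⟨h1.1.symm, h1.2.symm⟩

theorem length_pb (x w : List Bool) : (pairBits x w).length = 2 * x.length + 1 + w.length :=
  length_pairBits x w

theorem cK_inj {S : ℕ → Polynomial ℕ} {e e' : ℕ} {x x' k k' : List Bool}
    (h : cK S e x k = cK S e' x' k') : e = e' ∧ x = x' ∧ k = k' := by
  simp only [cK, List.cons.injEq, true_and] at h
  obtain ⟨h1, _, h2⟩ := cS_inj h
  obtain ⟨h3, h4⟩ := pairBits_inj h2
  exact ⟨h1, h4, h3⟩

/-- indices of codes -/
inductive Ix (S : ℕ → Polynomial ℕ) (b : ℕ → ℕ) : Type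
  | far (p : IB S b) : Ix S b
  | key (e : ℕ) (x k : List Bool) : Ix S b

/-- addresses of codes -/
def cI {S : ℕ → Polynomial ℕ} {b : ℕ → ℕ} : Ix S b → List Bool
  | .far p => true :: true :: cB S b p
  | .key e x k => cK S e x k

theorem cI_inj (S : ℕ → Polynomial ℕ) (b : ℕ → ℕ) :
    Function.Injective (cI : Ix S b → List Bool) := by
  intro p q h
  cases p with
  | far p =>
    cases q with
    | far q =>
      simp only [cI, List.cons.injEq, true_and] at h
      rw [cB_inj S b h]
    | key e x k => simp [cI, cK] at h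
  | key e x k =>
    cases q with
    | far q => simp [cI, cK] at h
    | key e' x' k' =>
      obtain ⟨rfl, rfl, rfl⟩ := cK_inj h
      rfl

variable {g : ℕ → SAlg × Polynomial ℕ} {S : ℕ → Polynomial ℕ} {b : ℕ → ℕ} {Φ : Oracle → Oracle}

/-- acceptance of the input `x` by the algorithm number `e` -/
def Ac (g : ℕ → SAlg × Polynomial ℕ) (S : ℕ → Polynomial ℕ) (e : ℕ) (x : List Bool)
    (A : Oracle) : Prop := CC.Acc (g e).1 (CC.cut ((S e).eval x.length) A) x

/-- the content of a code -/
def Cont (g : ℕ → SAlg × Polynomial ℕ) (S : ℕ → Polynomial ℕ) (b : ℕ → ℕ) :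
    Ix S b → Oracle → Prop
  | .far p, A => Ac g S p.1.1 p.1.2.2 A
  | .key e x k, A => A (false :: va ((S e).eval x.length) k) = true ∧ Ac g S e x A

theorem ac_congr {e : ℕ} {x : List Bool} {A A' : Oracle}
    (h : ∀ z : List Bool, z.length ≤ (S e).eval x.length → A z = A' z) :
    Ac g S e x A ↔ Ac g S e x A' := by
  have hcut : CC.cut ((S e).eval x.length) A = CC.cut ((S e).eval x.length) A' := by
    funext z
    unfold CC.cut
    split_ifs with hz
    · exact h z hz
    · rfl
  unfold Ac
  rw [hcut]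

/-- the data -/
structure Kp (g : ℕ → SAlg × Polynomial ℕ) (S : ℕ → Polynomial ℕ) (b : ℕ → ℕ)
    (Φ : Oracle → Oracle) : Prop where
  big : ∀ e n, n + e + 1 ≤ (S e).eval n
  loc : ∀ e (x a : List Bool), a.length ≤ (g e).2.eval x.length →
    ((g e).1.act (pairBits x a)).length ≤ (S e).eval x.length
  off : ∀ B y, (∀ p : Ix S b, y ≠ cI p) → Φ B y = B y
  on : ∀ B (p : Ix S b), Φ B (cI p) = true ↔ Cont g S b p (Φ B)

theorem lt_far {S : ℕ → Polynomial ℕ} (hS : ∀ e n, n + e + 1 ≤ (S e).eval n) {b : ℕ → ℕ}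
    (p : IB S b) : (S p.1.1).eval p.1.2.2.length < (cI (Ix.far p)).length := by
  obtain ⟨⟨e, i, y⟩, h⟩ := p
  show (S e).eval y.length < (true :: true :: cS e i y).length
  have h1 : (S e).eval y.length ^ (b ((S e).eval y.length) + 1) ≤ i := h
  have h3 : (S e).eval y.length ≤ i := by
    have h1' : 1 ≤ (S e).eval y.length := le_trans (by omega) (hS e _)
    exact (Nat.le_self_pow (by omega) _).trans h1
  rw [List.length_cons, List.length_cons, length_cS]
  omega

theorem lt_key (S : ℕ → Polynomial ℕ) (b : ℕ → ℕ) (e : ℕ) (x k : List Bool) :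
    (false :: va ((S e).eval x.length) k).length < (cI (Ix.key e x k : Ix S b)).length := by
  show _ < (cK S e x k).length
  unfold cK
  rw [List.length_cons, length_va, List.length_cons, List.length_cons, length_cS, length_pb]
  omega

theorem cont_congr (hS : ∀ e n, n + e + 1 ≤ (S e).eval n) (p : Ix S b) {A A' : Oracle}
    (hA : ∀ z : List Bool, z.length < (cI p).length → A z = A' z) :
    Cont g S b p A ↔ Cont g S b p A' := by
  cases p with
  | far p =>
    exact ac_congr fun z hz => hA z (lt_of_le_of_lt hz (lt_far hS p))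
  | key e x k =>
    have h1 := lt_key S b e x k
    have h2 : (S e).eval x.length < (cI (Ix.key e x k : Ix S b)).length := by
      rw [List.length_cons, length_va] at h1
      omega
    exact and_congr (by rw [hA _ h1]) (ac_congr fun z hz => hA z (lt_of_le_of_lt hz h2))

theorem exists_kp (g : ℕ → SAlg × Polynomial ℕ) (b : ℕ → ℕ) :
    ∃ (S : ℕ → Polynomial ℕ) (Φ : Oracle → Oracle), Kp g S b Φ := by
  choose bb hbb using fun e : ℕ => CC.act_length (g e).1 (g e).2
  set S : ℕ → Polynomial ℕ := fun e => bb e + Polynomial.X + Polynomial.C (e + 1) with hS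
  have hSe : ∀ e n, (S e).eval n = (bb e).eval n + n + (e + 1) := by
    intro e n
    rw [hS]
    simp
  have hbig : ∀ e n, n + e + 1 ≤ (S e).eval n := fun e n => by rw [hSe]; omega
  obtain ⟨Φ, h1, h2⟩ := exists_fix (cI : Ix S b → List Bool) (cI_inj S b) (Cont g S b)
    (fun p A A' hA => cont_congr hbig p hA)
  refine ⟨S, Φ, hbig, fun e x a ha => ?_, h1, h2⟩
  have h3 := hbb e x a ha
  rw [hSe]
  omega

/-- the base oracle: the keys -/
noncomputable def keyO (κ : ℕ → Option (List Bool)) : Oracle
  | false :: u => @decide (∃ s k, κ s = some k ∧ u = va s k) (Classical.propDecidable _)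
  | _ => false

theorem keyO_va (κ : ℕ → Option (List Bool)) (s : ℕ) (k : List Bool) :
    keyO κ (false :: va s k) = true ↔ κ s = some k := by
  simp only [keyO, decide_eq_true_iff]
  constructor
  · rintro ⟨s', k', h1, h2⟩
    obtain ⟨rfl, rfl⟩ := va_inj h2
    exact h1
  · intro h
    exact ⟨s, k, h, rfl⟩

theorem keyO_eq_true {κ : ℕ → Option (List Bool)} {q : List Bool} (h : keyO κ q = true) :
    ∃ s k, κ s = some k ∧ q = false :: va s k := by
  rcases q with _ | ⟨c, u⟩
  · simp [keyO] at h
  · cases c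
    · simp only [keyO, decide_eq_true_iff] at h
      obtain ⟨s, k, h1, h2⟩ := h
      exact ⟨s, k, h1, by rw [h2]⟩
    · simp [keyO] at h

/-- the oracle -/
noncomputable def orc (Φ : Oracle → Oracle) (κ : ℕ → Option (List Bool)) : Oracle := Φ (keyO κ)

theorem off_va (hc : Kp g S b Φ) (B : Oracle) (u : List Bool) :
    Φ B (false :: u) = B (false :: u) := by
  apply hc.off
  intro p h
  cases p <;> simp [cI, cK] at h

theorem orc_va (hc : Kp g S b Φ) (κ : ℕ → Option (List Bool)) (s : ℕ) (k : List Bool) :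
    orc Φ κ (false :: va s k) = true ↔ κ s = some k := by
  unfold orc
  rw [off_va hc, keyO_va]

/-- **Truth of the codes.** -/
theorem code_true (hg : Function.Surjective g) (hc : Kp g S b Φ) (B : Oracle)
    {L : Set (List Bool)} (hL : IsPSPACE (Φ B) L) :
    ∃ e : ℕ, ∀ x : List Bool, Ac g S e x (Φ B) ↔ x ∈ L := by
  obtain ⟨M, p, hM⟩ := hL
  obtain ⟨e, he⟩ := hg (M, p)
  refine ⟨e, fun x => ?_⟩
  have hloc := hc.loc e
  unfold Ac
  rw [he] at hloc ⊢
  obtain ⟨hM1, s, z, hs, hz, hLz⟩ := hM x
  have hcong : ∀ s, M.Reach (CC.cut ((S e).eval x.length) (Φ B)) x s ↔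
      M.Reach (Φ B) x s := by
    refine CC.reach_congr (fun s => s.length ≤ p.eval x.length) hM1 ?_
    intro s q h1 h2
    have h3 := hloc x s h1
    rw [h2, List.length_cons] at h3
    unfold CC.cut
    rw [if_pos (by omega)]
  constructor
  · rintro ⟨t, ht, ht2⟩
    have hst := CC.reach_unique hs ((hcong t).1 ht) ⟨_, hz⟩ ⟨_, ht2⟩
    rw [hst, ht2] at hz
    simp only [List.cons.injEq, true_and] at hz
    exact hLz.2 hz.symm
  · intro hx
    refine ⟨s, (hcong s).2 hs, ?_⟩
    rw [hz, hLz.1 hx]

/-- **Locality.** -/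
theorem phi_loc (hc : Kp g S b Φ) {N : ℕ} {B B' : Oracle}
    (hB : ∀ u : List Bool, u.length ≤ N → B u = B' u) : ∀ (n : ℕ) (q : List Bool),
    q.length = n → q.length ≤ N → Φ B q = Φ B' q := by
  intro n
  induction n using Nat.strong_induction_on with
  | _ n ih =>
    intro q hq hqN
    by_cases hp : ∃ p : Ix S b, q = cI p
    · obtain ⟨p, rfl⟩ := hp
      rw [Bool.eq_iff_iff, hc.on, hc.on]
      exact cont_congr hc.big p fun z hz => ih z.length (by omega) z rfl (by omega)
    · push Not at hp
      rw [hc.off B q hp, hc.off B' q hp]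
      exact hB q hqN

theorem orc_loc (hc : Kp g S b Φ) {N : ℕ} {κ κ' : ℕ → Option (List Bool)}
    (h : ∀ s < N, κ s = κ' s) (q : List Bool) (hq : q.length ≤ N) : orc Φ κ q = orc Φ κ' q := by
  refine phi_loc hc (N := N) (fun u hu => ?_) _ q rfl hq
  have key : ∀ κ κ' : ℕ → Option (List Bool), (∀ s < N, κ s = κ' s) → keyO κ u = true →
      keyO κ' u = true := by
    intro κ κ' h h1
    obtain ⟨s, k, h2, rfl⟩ := keyO_eq_true h1
    rw [List.length_cons, length_va] at hu
    rw [keyO_va, ← h s (by omega)]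
    exact h2
  rw [Bool.eq_iff_iff]
  exact ⟨key κ κ' h, key κ' κ fun s hs => (h s hs).symm⟩

/-- the string `q` contains the key `k` number `s` -/
def Has (S : ℕ → Polynomial ℕ) (q : List Bool) (s : ℕ) (k : List Bool) : Prop :=
  q = false :: va s k ∨ ∃ e x, q = cK S e x k ∧ s = (S e).eval x.length

theorem Has.unique {q : List Bool} {s s' : ℕ} {k k' : List Bool} (h : Has S q s k)
    (h' : Has S q s' k') : s = s' ∧ k = k' := by
  rcases h with rfl | ⟨e, x, rfl, rfl⟩
  · rcases h' with h | ⟨e', x', h, rfl⟩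
    · exact va_inj (List.cons.inj h).2
    · simp [cK] at h
  · rcases h' with h | ⟨e', x', h, rfl⟩
    · simp [cK] at h
    · obtain ⟨rfl, rfl, rfl⟩ := cK_inj h
      exact ⟨rfl, rfl⟩

/-- **The keys are hidden.** -/
theorem orc_diff (hc : Kp g S b Φ) {s₀ T : ℕ} (hT : ∀ s, s₀ ≤ s → T < s ^ (b s + 1))
    {κ κ' : ℕ → Option (List Bool)} (h : ∀ s < s₀, κ s = κ' s) (q : List Bool)
    (hq : q.length ≤ T) (hne : orc Φ κ q ≠ orc Φ κ' q) :
    ∃ s k, s₀ ≤ s ∧ (κ s = some k ∨ κ' s = some k) ∧ Has S q s k := by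
  by_cases hp : ∃ p : Ix S b, q = cI p
  · obtain ⟨p, rfl⟩ := hp
    cases p with
    | far p =>
      exfalso
      apply hne
      have hs : (S p.1.1).eval p.1.2.2.length < s₀ := by
        by_contra hcon
        have h1 := hT _ (not_lt.1 hcon)
        obtain ⟨⟨e, i, y⟩, h2⟩ := p
        have h3 : (S e).eval y.length ^ (b ((S e).eval y.length) + 1) ≤ i := h2
        have h4 : (true :: true :: cS e i y).length ≤ T := hq
        rw [List.length_cons, List.length_cons, length_cS] at h4
        simp only at h1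
        omega
      rw [Bool.eq_iff_iff]
      unfold orc
      rw [hc.on, hc.on]
      exact ac_congr fun z hz => orc_loc hc (N := s₀) h z (by omega)
    | key e x k =>
      by_cases hs : (S e).eval x.length < s₀
      · exfalso
        apply hne
        rw [Bool.eq_iff_iff]
        unfold orc
        rw [hc.on, hc.on]
        refine and_congr ?_ (ac_congr fun z hz => orc_loc hc (N := s₀) h z (by omega))
        have h1 := orc_va hc κ ((S e).eval x.length) k
        have h2 := orc_va hc κ' ((S e).eval x.length) k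
        unfold orc at h1 h2
        rw [h1, h2, h _ hs]
      · refine ⟨_, k, not_lt.1 hs, ?_, Or.inr ⟨e, x, rfl, rfl⟩⟩
        by_contra hcon
        push Not at hcon
        apply hne
        rw [Bool.eq_iff_iff]
        have e1 : ∀ κ'' : ℕ → Option (List Bool), κ'' ((S e).eval x.length) ≠ some k →
            ¬ orc Φ κ'' (cI (Ix.key e x k : Ix S b)) = true := by
          intro κ'' h1 h2
          unfold orc at h2
          rw [hc.on] at h2
          exact h1 ((orc_va hc κ'' _ k).1 h2.1)
        exact ⟨fun h1 => absurd h1 (e1 κ hcon.1), fun h1 => absurd h1 (e1 κ' hcon.2)⟩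
  · push Not at hp
    unfold orc at hne
    rw [hc.off _ q hp, hc.off _ q hp] at hne
    have : keyO κ q = true ∨ keyO κ' q = true := by
      by_contra hcon
      push Not at hcon
      apply hne
      rw [Bool.eq_false_of_not_eq_true hcon.1, Bool.eq_false_of_not_eq_true hcon.2]
    have key : ∀ κ κ' : ℕ → Option (List Bool), (∀ s < s₀, κ s = κ' s) → keyO κ q = true →
        keyO κ q ≠ keyO κ' q → ∃ s k, s₀ ≤ s ∧ κ s = some k ∧ Has S q s k := by
      intro κ κ' h h1 h2
      obtain ⟨s, k, h3, rfl⟩ := keyO_eq_true h1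
      refine ⟨s, k, ?_, h3, Or.inl rfl⟩
      by_contra hcon
      apply h2
      rw [h1, eq_comm, keyO_va, ← h s (by omega)]
      exact h3
    rcases this with h1 | h1
    · obtain ⟨s, k, h2, h3, h4⟩ := key κ κ' h h1 hne
      exact ⟨s, k, h2, Or.inl h3, h4⟩
    · obtain ⟨s, k, h2, h3, h4⟩ := key κ' κ (fun s hs => (h s hs).symm) h1 hne.symm
      exact ⟨s, k, h2, Or.inr h3, h4⟩

end Pool.Agent.H9x.V1
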