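import Pool.Agent.H9x.Q.Defs

/-!
# Unambiguous nondeterministic time, advice, and nearly polynomial time
-/

set_option autoImplicit false

namespace Pool.Agent.H9x.V1

open Pool.Agent.NPC Pool.Agent.H620R2.Gauge Pool.Agent.H9x.Q

/-- The language `L` is in `UP` relative to `A`: `x` is in `L` if and only if some witness `w` of
polynomially bounded length is accepted by a polynomial-time algorithm with oracle `A`, and no input
has more than one accepted witness. -/
def IsUP (A : Oracle) (L : Set (List Bool)) : Prop :=
  ∃ (V : List Bool → List Bool) (p : Polynomial ℕ), IsFP A V ∧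
    (∀ x, x ∈ L ↔ ∃ w : List Bool, w.length ≤ p.eval x.length ∧ V (pairBits w x) = [true]) ∧
    ∀ x w w' : List Bool, V (pairBits w x) = [true] → V (pairBits w' x) = [true] → w = w'

/-- The language `L` is decided in time `n ^ O(α n)` relative to `A`: the input `x`, together with
`(|x| + 2) ^ (C * (α |x| + 1))` ones, is decided in polynomial time relative to `A`. -/
def IsTime (α : ℕ → ℕ) (A : Oracle) (L : Set (List Bool)) : Prop :=
  ∃ (C : ℕ) (V : List Bool → List Bool), IsFP A V ∧ ∀ x : List Bool,
    x ∈ L ↔ V (pairBits (List.replicate ((x.length + 2) ^ (C * (α x.length + 1))) true) x) = [true]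

/-- The language `L` is decided in polynomial time relative to `A` with `O(α n * log n)` bits of
advice. -/
def IsAdv (α : ℕ → ℕ) (A : Oracle) (L : Set (List Bool)) : Prop :=
  ∃ (C : ℕ) (h : ℕ → List Bool) (V : List Bool → List Bool), IsFP A V ∧
    (∀ n, (h n).length ≤ C * (α n + 1) * (Nat.log 2 n + 1)) ∧
    ∀ x : List Bool, x ∈ L ↔ V (pairBits (h x.length) x) = [true]

/-- The language `L` is decided with bounded error by a polynomial-time uniform family of quantum
circuits relative to `A`, with `O(log n)` bits of advice. -/
def IsBQPlog (A : Oracle) (L : Set (List Bool)) : Prop :=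
  ∃ (F : QFamily) (c : ℕ) (h : ℕ → List Bool),
    (∀ n, (h n).length ≤ c * (Nat.log 2 n + 1)) ∧
    ∀ x : List Bool, (x ∈ L → 2 / 3 ≤ F.acc A (pairBits (h x.length) x)) ∧
      (x ∉ L → F.acc A (pairBits (h x.length) x) ≤ 1 / 3)

end Pool.Agent.H9x.V1
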