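import Pool.Agent.H9x.V1.Low

/-! The oracle with the hidden keys: conclusion -/

set_option autoImplicit false

namespace Pool.Agent.H9x.V1

open Pool.Agent.NPC Pool.Agent.H622R2 Pool.Agent.H620R2.Gauge Pool.Agent.H622R2.Exp
  Pool.Agent.TH678.ETH Pool.Agent.TH678.SETH Pool.Agent.TH678.RS Filter Finset Pool.Agent.H9x.Q

variable {g : ℕ → SAlg × Polynomial ℕ} {S : ℕ → Polynomial ℕ} {b : ℕ → ℕ} {Φ : Oracle → Oracle}

/-- the length of the keys -/
def ell (α : ℕ → ℕ) (s : ℕ) : ℕ := (bt α s + 1) * (Nat.log 2 s + 1)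

theorem ell_mono {α : ℕ → ℕ} (hα : Monotone α) : Monotone (ell α) := fun _ _ h =>
  Nat.mul_le_mul (Nat.add_le_add_right (bt_mono hα h) 1)
    (Nat.add_le_add_right (Nat.log_mono_right h) 1)

theorem length_ext {ℓ : ℕ → ℕ} (hℓ : Monotone ℓ) {κ : ℕ → List Bool}
    (hκ : ∀ s, (κ s).length = ℓ s) {s₀ : ℕ} {r : List Bool} (hr : r.length = ℓ s₀) (s : ℕ) :
    (ext ℓ κ s₀ r s).length = ℓ s := by
  unfold ext
  split_ifs with h
  · exact hκ s
  · have := hℓ (not_lt.1 h)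
    simp [hr]
    omega

/-- **The language of the keys is in `UP` and in `coUP`.** -/
theorem up_LK (hc : Kp g S b Φ) (κ : ℕ → List Bool) (q : Polynomial ℕ)
    (hq : ∀ s, (κ s).length ≤ q.eval s) :
    IsUP (orc Φ fun s => some (κ s)) (LK κ) ∧ IsUP (orc Φ fun s => some (κ s)) (LK κ)ᶜ := by
  have hx : Poly (fun y => (unpair y).2) := Poly.snd poly_unpair
  have hw : Poly (fun y => (unpair y).1) := Poly.fst poly_unpair
  have h1 : Poly (fun z => false :: va (unpair z).2.length (unpair z).1) :=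
    Poly.cons (NPC.Poly.const false) (poly_va (UPoly.length hx) hw)
  have h2 : Poly (fun z => (unpair z).1.getD ((unpair z).2.filter fun b => b).length false) :=
    Poly.getD hw (Poly.length (Poly.filter hx (p := fun _ b => b) (Poly.snd Poly.id)))
      (NPC.Poly.const false)
  have key : ∀ c : Bool, ∃ (V : List Bool → List Bool), IsFP (orc Φ fun s => some (κ s)) V ∧
      ∀ w x, V (pairBits w x) = [true] ↔ w = κ x.length ∧ (c = true ↔ x ∈ LK κ) := by
    intro c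
    refine ⟨_, isFP_two _ (fun z a _ => a && ((unpair z).1.getD
      ((unpair z).2.filter fun b => b).length false == c)) h1 h1 (fun a b => ?_), ?_⟩
    · refine Poly.and (NPC.Poly.const a) ?_
      exact poly_fin2 (fun a b => a == b) h2 (NPC.Poly.const c)
    · intro w x
      simp only [unpair_pairBits, List.cons.injEq, and_true, Bool.and_eq_true, beq_iff_eq]
      rw [orc_va hc, Option.some.injEq, eq_comm]
      refine and_congr_right fun hw => ?_
      have h4 : (w.getD (x.filter fun b => b).length false = true) ↔ x ∈ LK κ := by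
        rw [hw]
        rfl
      rw [← h4]
      cases w.getD (x.filter fun b => b).length false <;> cases c <;> simp
  constructor
  · obtain ⟨V, hV, h⟩ := key true
    refine ⟨V, q, hV, fun x => ?_, fun x w w' h1 h2 => ?_⟩
    · constructor
      · intro hx
        exact ⟨_, hq _, (h _ _).2 ⟨rfl, by simp [hx]⟩⟩
      · rintro ⟨w, _, hw⟩
        exact ((h _ _).1 hw).2.1 rfl
    · rw [((h _ _).1 h1).1, ((h _ _).1 h2).1]
  · obtain ⟨V, hV, h⟩ := key false
    refine ⟨V, q, hV, fun x => ?_, fun x w w' h1 h2 => ?_⟩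
    · constructor
      · intro hx
        exact ⟨_, hq _, (h _ _).2 ⟨rfl, by
          simp only [Bool.false_eq_true, false_iff]; exact hx⟩⟩
      · rintro ⟨w, _, hw⟩ hx
        exact absurd (((h _ _).1 hw).2.2 hx) (by simp)
    · rw [((h _ _).1 h1).1, ((h _ _).1 h2).1]

theorem ell_le_self {α : ℕ → ℕ} {m : ℕ} (hm : 8 ≤ m) : ell α (2 ^ m) ≤ 2 ^ m := by
  have h3 : (m + 1) ^ 2 ≤ 2 ^ m := by
    have : ∀ k, (k + 8 + 1) ^ 2 ≤ 2 ^ (k + 8) := by
      intro k
      induction k with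
      | zero => norm_num
      | succ k ih =>
        rw [show k + 1 + 8 = (k + 8) + 1 by ring, pow_succ 2]
        have h : (k + 8 + 1 + 1) ^ 2 ≤ 2 * (k + 8 + 1) ^ 2 := by nlinarith [Nat.zero_le k]
        omega
    obtain ⟨k, rfl⟩ : ∃ k, m = k + 8 := ⟨m - 8, by omega⟩
    exact this k
  refine le_trans ?_ h3
  have hbt : bt α (2 ^ m) ≤ m := by
    rw [bt_pow]
    exact min_le_right _ _
  unfold ell
  rw [Nat.log_pow (by norm_num), sq]
  exact Nat.mul_le_mul_right _ (by omega)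

theorem numbers {α : ℕ → ℕ} (hα : Monotone α) (hα' : Tendsto α atTop atTop) (c N : ℕ)
    (P : Polynomial ℕ) : ∃ s₀ a G : ℕ, N ≤ s₀ ∧ a = c * (Nat.log 2 s₀ + 1) ∧
      G = P.eval (2 * a + 1 + s₀) ∧ ell α s₀ ≤ s₀ ∧ (∀ s, s₀ ≤ s → G < s ^ (bt α s + 1)) ∧
      2 ^ (a + 1) * (ell α s₀ * (2304 * G ^ 2) + 1) < 2 ^ ell α s₀ := by
  obtain ⟨d, hd1, hd⟩ := YAux.poly_bound P
  obtain ⟨m, hm1, hm2⟩ := small hα hα' (2 ^ (c + 1) * (2304 * (2 * c + 4) ^ (2 * d) + 1))
    (c + 2 + 2 * d) (c + 2 + 2 * d + 1) (by omega) (N + 8)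
  have hlog : Nat.log 2 (2 ^ m) = m := Nat.log_pow (by norm_num) m
  have hNs : N ≤ 2 ^ m := by
    have : m < 2 ^ m := Nat.lt_two_pow_self
    omega
  refine ⟨2 ^ m, c * (m + 1), P.eval (2 * (c * (m + 1)) + 1 + 2 ^ m), hNs, by rw [hlog], rfl,
    ell_le_self (by omega), ?_⟩
  generalize hX : (m + 1) * 2 ^ m = X at hm2
  have hmX : m + 1 ≤ X := by rw [← hX]; exact Nat.le_mul_of_pos_right _ (by positivity)
  have h2X : 2 ^ m ≤ X := by rw [← hX]; exact Nat.le_mul_of_pos_left _ (by omega)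
  have hX1 : 1 ≤ X := by omega
  have hnX : 2 * (c * (m + 1)) + 1 + 2 ^ m + 2 ≤ (2 * c + 4) * X := by
    have : c * (m + 1) ≤ c * X := Nat.mul_le_mul_left _ hmX
    have e : (2 * c + 4) * X = 2 * (c * X) + 4 * X := by ring
    omega
  have hGX := (hd (2 * (c * (m + 1)) + 1 + 2 ^ m)).trans (Nat.pow_le_pow_left hnX d)
  generalize P.eval (2 * (c * (m + 1)) + 1 + 2 ^ m) = G at hGX ⊢
  have hbt : bt α (2 ^ m) ≤ m := by
    rw [bt_pow]
    exact min_le_right _ _
  have hell : ell α (2 ^ m) ≤ X ^ 2 := by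
    unfold ell
    rw [hlog, sq]
    exact Nat.mul_le_mul ((by omega : bt α (2 ^ m) + 1 ≤ m + 1).trans hmX) hmX
  have h2a : 2 ^ (c * (m + 1) + 1) ≤ 2 ^ (c + 1) * X ^ c := by
    calc 2 ^ (c * (m + 1) + 1) = 2 ^ (c + 1) * (2 ^ m) ^ c := by rw [← pow_mul, ← pow_add]; ring_nf
      _ ≤ 2 ^ (c + 1) * X ^ c := Nat.mul_le_mul_left _ (Nat.pow_le_pow_left h2X c)
  set K := (2 * c + 4) ^ (2 * d) with hK
  have hG2 : G ^ 2 ≤ K * X ^ (2 * d) := by
    calc G ^ 2 ≤ (((2 * c + 4) * X) ^ d) ^ 2 := Nat.pow_le_pow_left hGX 2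
      _ = K * X ^ (2 * d) := by rw [hK, ← pow_mul, mul_pow]; ring_nf
  clear_value K
  have hbig : 2 ^ (c * (m + 1) + 1) * (ell α (2 ^ m) * (2304 * G ^ 2) + 1) ≤
      2 ^ (c + 1) * (2304 * K + 1) * X ^ (c + 2 + 2 * d) := by
    have h3 : ell α (2 ^ m) * (2304 * G ^ 2) + 1 ≤ (2304 * K + 1) * X ^ (2 + 2 * d) := by
      have h4 : ell α (2 ^ m) * (2304 * G ^ 2) ≤ X ^ 2 * (2304 * (K * X ^ (2 * d))) :=
        Nat.mul_le_mul hell (Nat.mul_le_mul_left _ hG2)
      have h5 : X ^ 2 * (2304 * (K * X ^ (2 * d))) = (2304 * K) * X ^ (2 + 2 * d) := by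
        rw [pow_add]; ring
      have h6 : 1 ≤ X ^ (2 + 2 * d) := Nat.one_le_pow _ _ hX1
      rw [h5] at h4
      have e : (2304 * K + 1) * X ^ (2 + 2 * d) = 2304 * K * X ^ (2 + 2 * d) + X ^ (2 + 2 * d) := by
        ring
      omega
    calc 2 ^ (c * (m + 1) + 1) * (ell α (2 ^ m) * (2304 * G ^ 2) + 1) ≤
        (2 ^ (c + 1) * X ^ c) * ((2304 * K + 1) * X ^ (2 + 2 * d)) := Nat.mul_le_mul h2a h3
      _ = _ := by rw [show c + 2 + 2 * d = c + (2 + 2 * d) by ring, pow_add]; ring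
  have hGbig : G ≤ 2 ^ (c + 1) * (2304 * K + 1) * X ^ (c + 2 + 2 * d) := by
    have h4 : G ≤ K * X ^ (2 * d) := by
      rcases Nat.eq_zero_or_pos G with h | h
      · rw [h]; exact Nat.zero_le _
      · exact le_trans (Nat.le_self_pow (by norm_num) G) hG2
    have h5 : X ^ (2 * d) ≤ X ^ (c + 2 + 2 * d) := Nat.pow_le_pow_right hX1 (by omega)
    have h6 : K ≤ 2 ^ (c + 1) * (2304 * K + 1) := by
      have h7 : 1 ≤ 2 ^ (c + 1) := Nat.one_le_two_pow
      calc K ≤ 1 * (2304 * K + 1) := by omega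
        _ ≤ 2 ^ (c + 1) * (2304 * K + 1) := Nat.mul_le_mul_right _ h7
    exact h4.trans (Nat.mul_le_mul h6 h5)
  refine ⟨(hm2 G hGbig).2, ?_⟩
  refine ((hm2 _ hbig).2 (2 ^ m) le_rfl).trans_le ?_
  unfold ell
  rw [hlog, mul_comm, pow_mul]
  exact Nat.pow_le_pow_left (Nat.pow_le_pow_right (by norm_num) (by omega)) _

/-- one stage -/
theorem stage {α : ℕ → ℕ} (hα : Monotone α) (hα' : Tendsto α atTop atTop)
    (hc : Kp g S (bt α) Φ) (F : QFamily) (c N : ℕ) (κ : ℕ → List Bool)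
    (hκ : ∀ s, (κ s).length = ell α s) : ∃ (κ' : ℕ → List Bool) (N' : ℕ),
      (∀ s, (κ' s).length = ell α s) ∧ (∀ s < N, κ' s = κ s) ∧
      ∀ κ'' : ℕ → List Bool, (∀ s, (κ'' s).length = ell α s) → (∀ s < N', κ'' s = κ' s) →
        ∀ h : ℕ → List Bool, (∀ n, (h n).length ≤ c * (Nat.log 2 n + 1)) →
          ¬ ∀ x : List Bool,
            (x ∈ LK κ'' → 2 / 3 ≤ F.acc (orc Φ fun s => some (κ'' s)) (pairBits (h x.length) x)) ∧
            (x ∉ LK κ'' → F.acc (orc Φ fun s => some (κ'' s)) (pairBits (h x.length) x) ≤ 1 / 3) := by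
  obtain ⟨P, hP⟩ := F.size
  obtain ⟨s₀, a, G, hNs, ha, hG, hell', hT, hnum⟩ := numbers hα hα' c N P
  have hmon := ell_mono hα
  have hlen : ∀ h ∈ hs a, ∀ i < ell α s₀, (pairBits h (xi s₀ i)).length ≤ 2 * a + 1 + s₀ := by
    intro h hh i hi
    rw [length_pb, length_xi (by omega)]
    unfold hs at hh
    obtain ⟨n, hn, hh⟩ := mem_biUnion.1 hh
    obtain ⟨f, _, rfl⟩ := mem_image.1 hh
    rw [List.length_ofFn]
    have := mem_range.1 hn
    omega
  obtain ⟨r, hr⟩ := exists_key hc (ℓ := ell α) (T := G) hT κ F a G (fun h hh i hi => by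
    have h1 := hP (pairBits h (xi s₀ i)).length
    have h2 : P.eval (pairBits h (xi s₀ i)).length ≤ G := by
      rw [hG]
      exact eval_mono P (hlen h hh i hi)
    exact ⟨h1.1.trans h2, fun l r hl => (h1.2 l r hl).trans h2⟩) hnum
  refine ⟨ext (ell α) κ s₀ (List.ofFn r), max (G + 1) (s₀ + 1),
    fun s => length_ext hmon hκ (by simp) s, fun s hs => ?_, ?_⟩
  · unfold ext
    rw [if_pos (by omega)]
  intro κ'' hκ'' hag h hh hcon
  have hh0 : h s₀ ∈ hs a := mem_hs (by rw [ha]; exact hh s₀)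
  obtain ⟨i, hi, hne⟩ := hr _ hh0
  apply hne
  have hxl : (xi s₀ i).length = s₀ := length_xi (by omega)
  have h1 := hcon (xi s₀ i)
  rw [hxl] at h1
  have hκs : κ'' s₀ = List.ofFn r := by
    rw [hag s₀ (lt_of_lt_of_le (Nat.lt_succ_self _) (le_max_right _ _))]
    unfold ext
    rw [if_neg (lt_irrefl _), Nat.sub_self]
    simp
  have hmem : xi s₀ i ∈ LK κ'' ↔ (List.ofFn r).getD i false = true := by
    show (κ'' (xi s₀ i).length).getD ((xi s₀ i).filter fun b => b).length false = true ↔ _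
    rw [hxl, hκs, filter_xi]
  have hacc : F.acc (orc Φ fun s => some (κ'' s)) (pairBits (h s₀) (xi s₀ i)) =
      F.acc (orc Φ fun s => some (ext (ell α) κ s₀ (List.ofFn r) s)) (pairBits (h s₀) (xi s₀ i)) := by
    unfold QFamily.acc
    have h2 := hP (pairBits (h s₀) (xi s₀ i)).length
    have h3 : P.eval (pairBits (h s₀) (xi s₀ i)).length ≤ G := by
      rw [hG]
      exact eval_mono P (hlen _ hh0 i hi)
    refine prob_congr (B := G) (fun y hy => ?_) _ (fun l r hl => (h2.2 l r hl).trans h3) _ _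
    refine orc_loc hc (N := G + 1) (fun s hs => ?_) y (by omega)
    rw [hag s (lt_of_lt_of_le hs (le_max_left _ _))]
  rw [hmem, hacc] at h1
  exact h1

/-- the keys are short -/
theorem ell_bound {α : ℕ → ℕ} (hα : Monotone α) (q : Polynomial ℕ) : ∃ C : ℕ, ∀ n : ℕ,
    ell α (q.eval n) ≤ C * (α n + 1) * (Nat.log 2 n + 1) := by
  obtain ⟨d, _, hd⟩ := YAux.poly_bound q
  have h1 : ∀ᶠ n : ℕ in atTop, d * (Nat.log 2 (n + 2) + 1) ≤ n := by
    have h2 := ev_poly (4 * d + 4) 1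
    rw [eventually_atTop] at h2
    obtain ⟨m₀, hm₀⟩ := h2
    rw [eventually_atTop]
    refine ⟨2 ^ (m₀ + 2), fun n hn => ?_⟩
    set m := Nat.log 2 (n + 2) with hm
    have h3 : m₀ ≤ m := by
      have h4 : Nat.log 2 (2 ^ (m₀ + 2)) ≤ m := Nat.log_mono_right (by omega)
      rw [Nat.log_pow (by norm_num)] at h4
      omega
    have h5 := hm₀ m h3
    rw [pow_one] at h5
    have h6 : 2 ^ m ≤ n + 2 := Nat.pow_log_le_self 2 (by omega)
    have h7 : (4 * d + 4) * (m + 1) = 4 * (d * (m + 1)) + 4 * (m + 1) := by ring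
    omega
  rw [eventually_atTop] at h1
  obtain ⟨n₁, hn₁⟩ := h1
  set K := ∑ n ∈ Finset.range n₁, ell α (q.eval n) with hK
  have hlog2 : ∀ n : ℕ, Nat.log 2 (n + 2) ≤ Nat.log 2 n + 2 := by
    intro n
    rcases Nat.lt_or_ge n 2 with h | h
    · have : n + 2 ≤ 3 := by omega
      have h2 : Nat.log 2 (n + 2) ≤ Nat.log 2 3 := Nat.log_mono_right this
      have h3 : Nat.log 2 3 = 1 := by decide
      omega
    · have h2 : Nat.log 2 (n + 2) ≤ Nat.log 2 (n * 2) := Nat.log_mono_right (by omega)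
      rw [Nat.log_mul_base (by norm_num) (by omega)] at h2
      omega
  refine ⟨3 * d + 1 + K, fun n => ?_⟩
  by_cases hn : n₁ ≤ n
  · have h4 : Nat.log 2 (q.eval n) ≤ d * (Nat.log 2 (n + 2) + 1) :=
      (Nat.log_mono_right (hd n)).trans (Pool.Agent.Y626.WX.log_pow_le _ _)
    have h2 : Nat.log 2 (q.eval n) ≤ n := h4.trans (hn₁ n hn)
    have h3 : bt α (q.eval n) ≤ α n := (Pool.Agent.Y626.WX.bt_le_alpha _ _).trans (hα h2)
    have h5 : Nat.log 2 (q.eval n) + 1 ≤ (3 * d + 1) * (Nat.log 2 n + 1) := by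
      have h6 := hlog2 n
      have h7 : d * (Nat.log 2 (n + 2) + 1) ≤ d * (3 * (Nat.log 2 n + 1)) :=
        Nat.mul_le_mul_left _ (by omega)
      have e : (3 * d + 1) * (Nat.log 2 n + 1) = d * (3 * (Nat.log 2 n + 1)) + (Nat.log 2 n + 1) := by
        ring
      omega
    unfold ell
    calc (bt α (q.eval n) + 1) * (Nat.log 2 (q.eval n) + 1) ≤
        (α n + 1) * ((3 * d + 1) * (Nat.log 2 n + 1)) := Nat.mul_le_mul (by omega) h5
      _ = (3 * d + 1) * (α n + 1) * (Nat.log 2 n + 1) := by ring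
      _ ≤ _ := Nat.mul_le_mul_right _ (Nat.mul_le_mul_right _ (by omega))
  · have h2 : ell α (q.eval n) ≤ K :=
      Finset.single_le_sum (f := fun n => ell α (q.eval n))
        (fun _ _ => Nat.zero_le _) (Finset.mem_range.2 (by omega))
    calc ell α (q.eval n) ≤ K * 1 * 1 := by omega
      _ ≤ (3 * d + 1 + K) * (α n + 1) * (Nat.log 2 n + 1) :=
        Nat.mul_le_mul (Nat.mul_le_mul (by omega) (by omega)) (by omega)

/-- **The world with the hidden keys.** -/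
theorem main (α : ℕ → ℕ) (hα : Monotone α) (hα' : Tendsto α atTop atTop) :
    ∃ B : Oracle,
      (∀ L, IsPSPACE B L → IsUP B L ∧ IsUP B Lᶜ ∧ IsTime α B L ∧ IsAdv α B L) ∧
      ∃ L, IsUP B L ∧ IsUP B Lᶜ ∧ ¬ IsBQPlog B L := by
  obtain ⟨g, hg⟩ := CC.exists_enum
  obtain ⟨S, Φ, hc⟩ := exists_kp g (bt α)
  have : Nonempty QFamily := ⟨⟨fun _ => [], CC.const_polyTime _, 0⟩⟩
  obtain ⟨en, hen⟩ := exists_surjective_nat (QFamily × ℕ)
  obtain ⟨κ, hκ, hP⟩ := finite_ext (β := List Bool) (fun s k => k.length = ell α s)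
    (fun j κ => ∀ h : ℕ → List Bool, (∀ n, (h n).length ≤ (en j).2 * (Nat.log 2 n + 1)) →
      ¬ ∀ x : List Bool,
        (x ∈ LK κ → 2 / 3 ≤ (en j).1.acc (orc Φ fun s => some (κ s)) (pairBits (h x.length) x)) ∧
        (x ∉ LK κ → (en j).1.acc (orc Φ fun s => some (κ s)) (pairBits (h x.length) x) ≤ 1 / 3))
    ⟨fun s => List.replicate (ell α s) false, fun s => by simp⟩
    (fun j N κ hκ => stage hα hα' hc (en j).1 (en j).2 N κ hκ)
  -- the length of the keys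
  have hq : ∀ s, (κ s).length ≤ ((Polynomial.X + 1) ^ 2 : Polynomial ℕ).eval s := by
    intro s
    rw [hκ]
    simp only [Polynomial.eval_pow, Polynomial.eval_add, Polynomial.eval_X, Polynomial.eval_one]
    unfold ell
    rw [sq]
    have h1 : Nat.log 2 s ≤ s := Nat.log_le_self 2 s
    have h2 : bt α s ≤ Nat.log 2 s := min_le_right _ _
    exact Nat.mul_le_mul (by omega) (by omega)
  refine ⟨orc Φ fun s => some (κ s), fun L hL => ?_, LK κ, ?_⟩
  · obtain ⟨h1, h2⟩ := up_of_pspace hg hc _ hq hL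
    refine ⟨h1, h2, time_of_pspace hα hg hc hL, adv_of_pspace hg hc (fun e => ?_) hL⟩
    simp only [hκ]
    exact ell_bound hα (S e)
  · obtain ⟨h1, h2⟩ := up_LK hc κ _ hq
    refine ⟨h1, h2, ?_⟩
    rintro ⟨F, c, h, hh, hx⟩
    obtain ⟨j, hj⟩ := hen (F, c)
    have h3 := hP j h
    rw [hj] at h3
    exact h3 hh hx

end Pool.Agent.H9x.V1
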