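import Pool.Agent.H9x.V1.Fin

/-!
# A nearly collapsed world in which `UP ∩ coUP` is not contained in `BQP`

For every monotone unbounded function `α` there is an oracle relative to which every language in
`PSPACE` is in `UP ∩ coUP`, in deterministic time `n ^ O(α n)` and in `P` with `O(α n * log n)` bits
of advice, but some language in `UP ∩ coUP` is not in `BQP`, not even with `O(log n)` bits of advice.
-/

set_option autoImplicit false

namespace Pool.Agent.H9x.V1.HiddenKeys

open Pool.Agent.H620R2.Gauge Pool.Agent.H9x.V1 Filter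

theorem hiddenKeys (α : ℕ → ℕ) (hα : Monotone α) (hα' : Tendsto α atTop atTop) :
    ∃ B : Oracle,
      (∀ L, IsPSPACE B L → IsUP B L ∧ IsUP B Lᶜ ∧ IsTime α B L ∧ IsAdv α B L) ∧
      ∃ L, IsUP B L ∧ IsUP B Lᶜ ∧ ¬ IsBQPlog B L :=
  main α hα hα'

end Pool.Agent.H9x.V1.HiddenKeys
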